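import Pool.Agent.Q225.GH.Stm

/-! # All nodes of the base are covered an odd number of times

Job GLOB of project GH of helper225. -/

set_option autoImplicit false

namespace Pool.Agent.Q162.GH

open Finset Pool.Agent.TH658.Dg Pool.Agent.Q210.SP Pool.Agent.Q225.GH

theorem zmod2 : ∀ x : ZMod 2, x = 0 ∨ x = 1 := by decide

theorem eq_of_add : ∀ x y : ZMod 2, x + y = 0 → x = y := by decide

theorem t_GLOB : S_GLOB := by
  intro m p _ b W _ _ F φ t hC S hS v0 x0
  set y : Nd m p → ZMod 2 := fun u => ∑ a : W with φ a = u, S a with hy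
  have hadj : ∀ u w, (MB m p).G.Adj u w → y u = y w := by
    intro u w h
    have h1 : y u = ∑ a : W with φ a = u, ∑ b' : W with φ b' = w, t a b' := by
      refine sum_congr rfl fun a ha => ?_
      have ha' : φ a = u := (mem_filter.1 ha).2
      exact (hS a w (by rw [ha']; exact h)).symm
    have h2 : y w = ∑ b' : W with φ b' = w, ∑ a : W with φ a = u, t b' a := by
      refine sum_congr rfl fun a ha => ?_
      have ha' : φ a = w := (mem_filter.1 ha).2
      exact (hS a u (by rw [ha']; exact h.symm)).symm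
    rw [h1, h2, sum_comm]
    exact sum_congr rfl fun b' _ => sum_congr rfl fun a _ => hC.symm a b'
  have h1 : ∀ e : ME m, y (Nd.q (msrc m e)) = y (Nd.d e false) := fun e =>
    hadj _ _ (Or.inl (by simp [ndRel]))
  have h2 : ∀ e : ME m, y (Nd.d e false) = y (Nd.d e true) := fun e =>
    hadj _ _ (Or.inl (by simp [ndRel]))
  have h3 : ∀ e : ME m, y (Nd.q (mtgt m e)) = y (Nd.d e true) := fun e =>
    hadj _ _ (Or.inl (by simp [ndRel]))
  have h4 : ∀ v : MQ m, y (Nd.q v) = y (Nd.r v 0) := fun v =>
    hadj _ _ (Or.inl (by simp [ndRel]))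
  have h5 : ∀ (v : MQ m) (x y' : Fin 3), y (Nd.r v x) = y (Nd.c v y') := fun v x y' =>
    hadj _ _ (Or.inl (by simp [ndRel]))
  have hq : ∀ v w : MQ m, y (Nd.q v) = y (Nd.q w) := by
    intro v w
    obtain ⟨M, hM⟩ := exists_flow v w
    have h6 := pairing (msrc m) (mtgt m) (fun u : MQ m => y (Nd.q u)) M
    have h7 : ∑ e, cob (msrc m) (mtgt m) (fun u : MQ m => y (Nd.q u)) e * M e = 0 := by
      refine sum_eq_zero fun e _ => ?_
      have h8 : cob (msrc m) (mtgt m) (fun u : MQ m => y (Nd.q u)) e = 0 := by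
        show y (Nd.q (mtgt m e)) - y (Nd.q (msrc m e)) = 0
        rw [h3, h1, h2, sub_self]
      rw [h8, zero_mul]
    rw [h7] at h6
    have h8 : ∑ u, y (Nd.q u) * bd (msrc m) (mtgt m) M u = y (Nd.q v) + y (Nd.q w) := by
      have h9 : ∀ u, y (Nd.q u) * bd (msrc m) (mtgt m) M u =
          y (Nd.q u) * (Pi.single v 1 : MQ m → ZMod 2) u +
            y (Nd.q u) * (Pi.single w 1 : MQ m → ZMod 2) u := by
        intro u
        rw [hM, Pi.add_apply, mul_add]
      rw [sum_congr rfl fun u _ => h9 u, sum_add_distrib]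
      congr 1
      · rw [sum_eq_single v]
        · rw [Pi.single_eq_same, mul_one]
        · intro u _ hu
          rw [Pi.single_eq_of_ne hu, mul_zero]
        · intro h
          exact absurd (mem_univ _) h
      · rw [sum_eq_single w]
        · rw [Pi.single_eq_same, mul_one]
        · intro u _ hu
          rw [Pi.single_eq_of_ne hu, mul_zero]
        · intro h
          exact absurd (mem_univ _) h
    exact eq_of_add _ _ (h8.symm.trans h6)
  have hodd := hC.odd
  have h6 : ∀ a, ∑ b', t a b' * tw b (φ a) (φ b') =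
      ∑ v : MQ m, if φ a = Nd.q v then b v * S a else 0 := by
    intro a
    by_cases h : ∃ v, φ a = Nd.q v
    · obtain ⟨v, hv⟩ := h
      rw [sum_eq_single v]
      · rw [if_pos hv]
        have h7 := hS a (Nd.r v 0) (by rw [hv]; exact Or.inl (by simp [ndRel]))
        rw [← h7, mul_sum, sum_filter]
        refine sum_congr rfl fun b' _ => ?_
        rw [hv]
        have h8 : (tw b (Nd.q v) (φ b') : ZMod 2) = if φ b' = Nd.r v 0 then b v else 0 := by
          rcases hb' : φ b' with v' | ⟨e, b2⟩ | ⟨v', x⟩ | ⟨v', y'⟩ | i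
          · simp [tw]
          · simp [tw]
          · simp only [tw, Nd.r.injEq]
            congr 1
            exact propext ⟨fun h => ⟨h.1.symm, h.2⟩, fun h => ⟨h.1.symm, h.2⟩⟩
          · simp [tw]
          · simp [tw]
        rw [h8]
        split_ifs <;> ring
      · intro w _ hw
        rw [if_neg]
        intro h'
        rw [hv] at h'
        exact hw (Nd.q.inj h').symm
      · intro h'
        exact absurd (mem_univ _) h'
    · have h7 : ∀ v, φ a ≠ Nd.q v := fun v hv => h ⟨v, hv⟩
      rw [sum_eq_zero (fun v _ => if_neg (h7 v))]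
      refine sum_eq_zero fun b' _ => ?_
      have h8 : (tw b (φ a) (φ b') : ZMod 2) = 0 := by
        rcases ha' : φ a with v' | ⟨e, b2⟩ | ⟨v', x⟩ | ⟨v', y'⟩ | i
        · exact absurd ha' (h7 v')
        · rfl
        · rfl
        · rfl
        · rfl
      rw [h8, mul_zero]
  rw [sum_congr rfl fun a _ => h6 a, sum_comm] at hodd
  have h7 : ∀ v : MQ m, (∑ a, if φ a = Nd.q v then b v * S a else 0) = b v * y (Nd.q v0) := by
    intro v
    rw [hq v0 v, hy, mul_sum, sum_filter]
  rw [sum_congr rfl fun v _ => h7 v, ← sum_mul] at hodd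
  have h8 : y (Nd.q v0) = 1 := by
    rcases zmod2 (y (Nd.q v0)) with h | h
    · rw [h, mul_zero] at hodd
      exact absurd hodd (by decide)
    · exact h
  show y (Nd.r v0 x0) = 1
  rw [h5 v0 x0 0, ← h5 v0 0 0, ← h4, h8]

end Pool.Agent.Q162.GH
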